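import Mathlib
import Pool.Agent.Work.MP_02d86d_gt.B.EllF

/-!
# Ellipsoids as shape limits of iterated Steiner symmetrals

For a sequence of directions, all shape limits of all convex bodies along infinitely many tails
of the sequence are ellipsoids if and only if along every tail the symmetrals of every convex body
converge to a centred ball.
-/

set_option autoImplicit false

open Filter Topology MeasureTheory

namespace Pool.Agent.Results.MP_02d86d_gt.EllipsoidCriterion

open _root_.MP_02d86d_gt

/-- Let `n ≥ 2` and let `u i` be unit vectors. The following are equivalent: for infinitely many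
starts `j` (that is, for some `j ≥ m`, for every `m`), for every convex body `K`, whenever
isometric copies of the iterated symmetrals of `K` along `u j, u (j + 1), ...` converge to a
nonempty compact set, this set is an ellipsoid; and: for every start `j` and every convex body `K`
these symmetrals converge to a ball centred at the origin. -/
theorem result :
    ∀ (n : ℕ), 2 ≤ n → ∀ u : ℕ → EuclideanSpace ℝ (Fin n), (∀ i, ‖u i‖ = 1) →
      ((∀ m : ℕ, ∃ j : ℕ, m ≤ j ∧ ∀ (K : Set (EuclideanSpace ℝ (Fin n)))
          (Ks : ℕ → Set (EuclideanSpace ℝ (Fin n)))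
          (ψ : ℕ → IsometryEquiv (EuclideanSpace ℝ (Fin n)) (EuclideanSpace ℝ (Fin n)))
          (L : Set (EuclideanSpace ℝ (Fin n))),
          Convex ℝ K → IsCompact K → (interior K).Nonempty →
          Ks 0 = K →
          (∀ i, Ks (i + 1) =
            {x : EuclideanSpace ℝ (Fin n) |
              (∃ s : ℝ, x - (inner ℝ x (u (j + i))) • u (j + i) + s • u (j + i) ∈ Ks i) ∧
              2 * |inner ℝ x (u (j + i))| ≤ (volume {s : ℝ |
                x - (inner ℝ x (u (j + i))) • u (j + i) + s • u (j + i) ∈ Ks i}).toReal}) →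
          IsCompact L → L.Nonempty →
          Tendsto (fun i => Metric.hausdorffDist (ψ i '' Ks i) L) atTop (𝓝 0) →
          ∃ A : AffineEquiv ℝ (EuclideanSpace ℝ (Fin n)) (EuclideanSpace ℝ (Fin n)),
            L = A '' Metric.closedBall 0 1) ↔
        (∀ (j : ℕ) (K : Set (EuclideanSpace ℝ (Fin n)))
          (Ks : ℕ → Set (EuclideanSpace ℝ (Fin n))),
          Convex ℝ K → IsCompact K → (interior K).Nonempty →
          Ks 0 = K →
          (∀ i, Ks (i + 1) =
            {x : EuclideanSpace ℝ (Fin n) |
              (∃ s : ℝ, x - (inner ℝ x (u (j + i))) • u (j + i) + s • u (j + i) ∈ Ks i) ∧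
              2 * |inner ℝ x (u (j + i))| ≤ (volume {s : ℝ |
                x - (inner ℝ x (u (j + i))) • u (j + i) + s • u (j + i) ∈ Ks i}).toReal}) →
          ∃ r : ℝ, 0 < r ∧
            Tendsto (fun i => Metric.hausdorffDist (Ks i) (Metric.closedBall 0 r)) atTop
              (𝓝 0))) := by
  intro n hn u hu
  constructor
  · intro h j K Ks hc hK hi h0 hs
    subst h0
    obtain ⟨R, hR⟩ := exists_iter (u := fun i => u (j + i)) (K := Ks) (fun i => hu _) hs hK hc hi
    refine hR.ball_of_frequently hn fun m => ?_
    obtain ⟨j', hj', h'⟩ := h m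
    refine ⟨j', hj', fun R' K' hK' χ L hL hLn hlim => ?_⟩
    exact h' (K' 0) K' (fun i => (χ i).toIsometryEquiv) L (hK'.cvx 0) (hK'.cpt 0)
      (interior_nonempty_of_volume (hK'.cvx 0) hK'.pos) rfl hK'.step hL hLn hlim
  · intro h j
    refine ⟨j, le_rfl, fun K Ks ψ L hc hK hi h0 hs hL hLn hlim => ?_⟩
    obtain ⟨r, hr, hr'⟩ := h j K Ks hc hK hi h0 hs
    subst h0
    obtain ⟨R, hR⟩ := exists_iter (u := fun i => u (j + i)) (K := Ks) (fun i => hu _) hs hK hc hi
    exact affine_of_ball_limit hr hR.cpt hR.ne hr' ψ hL hLn hlim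

end Pool.Agent.Results.MP_02d86d_gt.EllipsoidCriterion
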