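import Mathlib
import Pool.Agent.Work.MP_02d86d_gt.NDim.MainE
import Pool.Agent.Work.MP_02d86d_gt.B.LimBody

/-!
# Shape limits of iterated Steiner symmetrals along slowly turning directions

For a sequence of directions in `ℝ^n` whose consecutive angles are square summable, the closure of
the set of shape limits (of all convex bodies, from all starts) is the set of all convex bodies
with a hyperplane of symmetry.
-/

set_option autoImplicit false

open Filter Topology MeasureTheory Set

namespace Pool.Agent.Results.MP_02d86d_gt.HyperplaneSymmetricLimits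

open _root_.MP_02d86d_gt

/-- A convex body. -/
def Body {n : ℕ} (K : Set (EuclideanSpace ℝ (Fin n))) : Prop :=
  Convex ℝ K ∧ IsCompact K ∧ (interior K).Nonempty

/-- The Steiner symmetral of `K` in the direction of the unit vector `u`. -/
def steiner {n : ℕ} (u : EuclideanSpace ℝ (Fin n)) (K : Set (EuclideanSpace ℝ (Fin n))) :
    Set (EuclideanSpace ℝ (Fin n)) :=
  {x | (∃ s : ℝ, x - (inner ℝ x u) • u + s • u ∈ K) ∧
    2 * |inner ℝ x u| ≤ (volume {s : ℝ | x - (inner ℝ x u) • u + s • u ∈ K}).toReal}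

/-- `L` is a limit of isometric copies of the iterated symmetrals of `K` in the directions
`u j, u (j + 1), ...`. -/
def ShapeLimit {n : ℕ} (u : ℕ → EuclideanSpace ℝ (Fin n)) (j : ℕ)
    (K L : Set (EuclideanSpace ℝ (Fin n))) : Prop :=
  ∃ (Ks : ℕ → Set (EuclideanSpace ℝ (Fin n)))
    (ψ : ℕ → IsometryEquiv (EuclideanSpace ℝ (Fin n)) (EuclideanSpace ℝ (Fin n))),
    Ks 0 = K ∧ (∀ i, Ks (i + 1) = steiner (u (j + i)) (Ks i)) ∧
      Tendsto (fun i => Metric.hausdorffDist (ψ i '' Ks i) L) atTop (𝓝 0)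

/-- `L` is symmetric with respect to a hyperplane. -/
def HyperplaneSymmetric {n : ℕ} (L : Set (EuclideanSpace ℝ (Fin n))) : Prop :=
  ∃ c v : EuclideanSpace ℝ (Fin n), ‖v‖ = 1 ∧
    ∀ x : EuclideanSpace ℝ (Fin n), c + x ∈ L ↔ c + (x - (2 * inner ℝ x v) • v) ∈ L

theorem mem_image_iff {n : ℕ} {A : EuclideanSpace ℝ (Fin n) ≃ₗᵢ[ℝ] EuclideanSpace ℝ (Fin n)}
    {L : Set (EuclideanSpace ℝ (Fin n))} {c : EuclideanSpace ℝ (Fin n)} :
    A '' ((fun x => x - c) '' L) = (fun x => x - c) '' L ↔
      ∀ x : EuclideanSpace ℝ (Fin n), c + x ∈ L ↔ c + A x ∈ L := by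
  have hm : ∀ y : EuclideanSpace ℝ (Fin n), y ∈ (fun x => x - c) '' L ↔ c + y ∈ L := by
    intro y
    constructor
    · rintro ⟨x, hx, rfl⟩
      simpa using hx
    · intro hy
      exact ⟨c + y, hy, by simp⟩
  constructor
  · intro h x
    rw [← hm, ← hm]
    conv_rhs => rw [← h]
    exact (A.injective.mem_set_image).symm
  · intro h
    ext y
    constructor
    · rintro ⟨x, hx, rfl⟩
      rw [hm] at hx ⊢
      exact (h x).1 hx
    · intro hy
      refine ⟨A.symm y, ?_, by simp⟩
      rw [hm] at hy ⊢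
      rw [h]
      simpa using hy

theorem sym_iff {n : ℕ} {L : Set (EuclideanSpace ℝ (Fin n))} :
    HyperplaneSymmetric L ↔ ∃ c v : EuclideanSpace ℝ (Fin n), ‖v‖ = 1 ∧
      rho v '' ((fun x => x - c) '' L) = (fun x => x - c) '' L := by
  unfold HyperplaneSymmetric
  simp only [mem_image_iff]
  constructor
  · rintro ⟨c, v, hv, h⟩
    refine ⟨c, v, hv, fun x => ?_⟩
    rw [rho_apply hv]
    exact h x
  · rintro ⟨c, v, hv, h⟩
    refine ⟨c, v, hv, fun x => ?_⟩
    rw [h, rho_apply hv]

/-- Let `n ≥ 2` and let `u i` be unit vectors in `ℝ^n` such that the squares of the sines of the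
angles between `u i` and `u (i + 1)` have a finite sum. Then every nonempty compact limit of
isometric copies of iterated symmetrals (of any convex body, from any start) is symmetric with
respect to a hyperplane, and every convex body with a hyperplane of symmetry is a limit of such
limits, for all starts far enough. -/
theorem result :
    ∀ (n : ℕ), 2 ≤ n → ∀ u : ℕ → EuclideanSpace ℝ (Fin n), (∀ i, ‖u i‖ = 1) →
      (Summable fun i => 1 - (inner ℝ (u i) (u (i + 1))) ^ 2) →
      (∀ (j : ℕ) (K L : Set (EuclideanSpace ℝ (Fin n))), Body K → IsCompact L → L.Nonempty →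
        ShapeLimit u j K L → HyperplaneSymmetric L) ∧
      (∀ L : Set (EuclideanSpace ℝ (Fin n)), Body L → HyperplaneSymmetric L →
        ∀ ε : ℝ, 0 < ε → ∃ j₀ : ℕ, ∀ j, j₀ ≤ j →
          ∃ K L' : Set (EuclideanSpace ℝ (Fin n)), Body K ∧ Body L' ∧
            ShapeLimit u j K L' ∧ Metric.hausdorffDist L' L < ε) := by
  intro n hn u hu hsum
  refine ⟨?_, ?_⟩
  · rintro j K L hK hL hLn ⟨Ks, ψ, h0, hs, hlim⟩
    subst h0
    obtain ⟨R, hR⟩ := exists_iter (u := fun i => u (j + i)) (K := Ks) (fun i => hu _) hs hK.2.1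
      hK.1 hK.2.2
    rw [sym_iff]
    exact refl_of_shape hR ψ hL hLn hlim
  · intro L hL hD ε hε
    obtain ⟨c, v, hv, hD⟩ := sym_iff.1 hD
    have hsub : ∀ (c : EuclideanSpace ℝ (Fin n)) {L : Set (EuclideanSpace ℝ (Fin n))},
        Body L → Body ((fun x => x - c) '' L) := by
      rintro c L ⟨h1, h2, h3⟩
      refine ⟨?_, h2.image (by fun_prop), ?_⟩
      · have := h1.translate (-c)
        simpa [sub_eq_neg_add] using this
      · have h4 : interior ((fun x => x - c) '' L) = (fun x => x - c) '' interior L :=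
          ((Homeomorph.subRight c).image_interior L).symm
        rw [h4]
        exact h3.image _
    obtain ⟨c', h0, hD'⟩ := recenter_n (hsub c hL).1 (hsub c hL).2.2 hv hD
    obtain ⟨j₀, hj₀⟩ := limit_near_n (by omega) hu hsum (hsub c' (hsub c hL)).2.1
      (hsub c' (hsub c hL)).1 h0 hv hD' hε
    refine ⟨j₀, fun j hj => ?_⟩
    obtain ⟨R, K, χ, L', h1, h2, h3, h4, h5, h6⟩ := hj₀ j hj
    have hiso : Isometry fun x : EuclideanSpace ℝ (Fin n) => x - (-(c' + c)) :=
      (IsometryEquiv.subRight (-(c' + c))).isometry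
    have hL2 : L = (fun x => x - (-(c' + c))) ''
        ((fun x => x - c') '' ((fun x => x - c) '' L)) := by
      rw [image_image, image_image]
      have h7 : ∀ a : EuclideanSpace ℝ (Fin n), a - c - c' - -(c' + c) = a := fun a => by abel
      simp only [h7, image_id']
    refine ⟨K 0, (fun x => x - (-(c' + c))) '' L',
      ⟨h1.cvx 0, h1.cpt 0, interior_nonempty_of_volume (h1.cvx 0) h1.pos⟩,
      hsub _ ⟨h3, h2, h4⟩,
      ⟨K, fun i => (χ i).toIsometryEquiv.trans (IsometryEquiv.subRight (-(c' + c))), rfl,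
        h1.step, ?_⟩, ?_⟩
    · refine h5.congr fun i => ?_
      rw [← Metric.hausdorffDist_image hiso, image_image]
      rfl
    · rw [hL2, Metric.hausdorffDist_image hiso]
      exact h6

end Pool.Agent.Results.MP_02d86d_gt.HyperplaneSymmetricLimits
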