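import Mathlib
import Pool.Agent.Work.MP_02d86d_gt.Dih.MainD
import Pool.Agent.Work.MP_02d86d_gt.Plane.Forward
import Pool.Agent.Work.MP_02d86d_gt.Lin.MainL
import Pool.Agent.Work.MP_02d86d_gt.Dih.Angle

/-!
# The shape limits of iterated Steiner symmetrals in the plane

For every sequence of directions in the plane the closure of the set of shape limits (of all convex
bodies, from all starts) is described: it consists of the discs, or of all convex bodies with
dihedral symmetry of a certain order `p`.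
-/

set_option autoImplicit false

open Filter Topology MeasureTheory Set

namespace Pool.Agent.Results.MP_02d86d_gt.PlanarShapeLimits

open _root_.MP_02d86d_gt

/-- A convex body in the plane. -/
def Body (K : Set (EuclideanSpace ℝ (Fin 2))) : Prop :=
  Convex ℝ K ∧ IsCompact K ∧ (interior K).Nonempty

/-- The Steiner symmetral of `K` in the direction of the unit vector `u`. -/
def steiner (u : EuclideanSpace ℝ (Fin 2)) (K : Set (EuclideanSpace ℝ (Fin 2))) :
    Set (EuclideanSpace ℝ (Fin 2)) :=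
  {x | (∃ s : ℝ, x - (inner ℝ x u) • u + s • u ∈ K) ∧
    2 * |inner ℝ x u| ≤ (volume {s : ℝ | x - (inner ℝ x u) • u + s • u ∈ K}).toReal}

/-- `Ks i` are the iterated Steiner symmetrals of `K` in the directions
`(cos (θ j), sin (θ j)), (cos (θ (j + 1)), sin (θ (j + 1))), ...`. -/
def Symmetrals (θ : ℕ → ℝ) (j : ℕ) (K : Set (EuclideanSpace ℝ (Fin 2)))
    (Ks : ℕ → Set (EuclideanSpace ℝ (Fin 2))) : Prop :=
  Ks 0 = K ∧ ∀ i, Ks (i + 1) = steiner !₂[Real.cos (θ (j + i)), Real.sin (θ (j + i))] (Ks i)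

/-- `L` is a limit of isometric copies of the iterated symmetrals of `K`. -/
def ShapeLimit (θ : ℕ → ℝ) (j : ℕ) (K L : Set (EuclideanSpace ℝ (Fin 2))) : Prop :=
  ∃ (Ks : ℕ → Set (EuclideanSpace ℝ (Fin 2)))
    (ψ : ℕ → IsometryEquiv (EuclideanSpace ℝ (Fin 2)) (EuclideanSpace ℝ (Fin 2))),
    Symmetrals θ j K Ks ∧ Tendsto (fun i => Metric.hausdorffDist (ψ i '' Ks i) L) atTop (𝓝 0)

/-- Dihedral symmetry of order `p`: for some centre `c` the set is invariant under the rotation
about `c` by the angle `2π/p` and under the reflection in a line through `c`. -/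
def Dihedral (p : ℕ) (L : Set (EuclideanSpace ℝ (Fin 2))) : Prop :=
  ∃ (c : EuclideanSpace ℝ (Fin 2)) (v : EuclideanSpace ℝ (Fin 2)), ‖v‖ = 1 ∧
    (∀ x : EuclideanSpace ℝ (Fin 2), c + x ∈ L ↔
      c + !₂[Real.cos (2 * Real.pi / p) * x 0 - Real.sin (2 * Real.pi / p) * x 1,
        Real.sin (2 * Real.pi / p) * x 0 + Real.cos (2 * Real.pi / p) * x 1] ∈ L) ∧
    (∀ x : EuclideanSpace ℝ (Fin 2), c + x ∈ L ↔ c + (x - (2 * inner ℝ x v) • v) ∈ L)

theorem mem_image_iff {A : EuclideanSpace ℝ (Fin 2) ≃ₗᵢ[ℝ] EuclideanSpace ℝ (Fin 2)}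
    {L : Set (EuclideanSpace ℝ (Fin 2))} {c : EuclideanSpace ℝ (Fin 2)} :
    A '' ((fun x => x - c) '' L) = (fun x => x - c) '' L ↔
      ∀ x : EuclideanSpace ℝ (Fin 2), c + x ∈ L ↔ c + A x ∈ L := by
  have hm : ∀ y : EuclideanSpace ℝ (Fin 2), y ∈ (fun x => x - c) '' L ↔ c + y ∈ L := by
    intro y
    constructor
    · rintro ⟨x, hx, rfl⟩
      simpa using hx
    · intro hy
      exact ⟨c + y, hy, by simp⟩
  constructor
  · intro h x
    rw [← hm, ← hm]
    conv_rhs => rw [← h]
    exact (A.injective.mem_set_image).symm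
  · intro h
    ext y
    constructor
    · rintro ⟨x, hx, rfl⟩
      rw [hm] at hx ⊢
      exact (h x).1 hx
    · intro hy
      refine ⟨A.symm y, ?_, by simp⟩
      rw [hm] at hy ⊢
      rw [h]
      simpa using hy

theorem dihedral_iff {p : ℕ} {L : Set (EuclideanSpace ℝ (Fin 2))} :
    Dihedral p L ↔ ∃ (c : EuclideanSpace ℝ (Fin 2)) (t : ℝ),
      Dihed p t ((fun x => x - c) '' L) := by
  unfold Dihedral Dihed
  simp only [mem_image_iff]
  simp only [rot_apply]
  constructor
  · rintro ⟨c, v, hv, h1, h2⟩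
    obtain ⟨t, ht⟩ := exists_dir v
    rw [hv, one_smul] at ht
    subst ht
    refine ⟨c, t, h1, fun x => ?_⟩
    rw [rho_apply hv]
    exact h2 x
  · rintro ⟨c, t, h1, h2⟩
    refine ⟨c, dir t, norm_dir t, h1, fun x => ?_⟩
    rw [h2, rho_apply (norm_dir t)]

theorem exists_iter_of {θ : ℕ → ℝ} {j : ℕ} {K : Set (EuclideanSpace ℝ (Fin 2))}
    {Ks : ℕ → Set (EuclideanSpace ℝ (Fin 2))} (hK : Body K) (h : Symmetrals θ j K Ks) :
    ∃ R, Iter R (fun i => dir (θ (j + i))) Ks := by
  obtain ⟨h0, hs⟩ := h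
  subst h0
  exact exists_iter (u := fun i => dir (θ (j + i))) (K := Ks) (fun i => norm_dir _) hs hK.2.1
    hK.1 hK.2.2

theorem body_of_iter {R : ℝ} {u : ℕ → EuclideanSpace ℝ (Fin 2)}
    {K : ℕ → Set (EuclideanSpace ℝ (Fin 2))} (h : Iter R u K) : Body (K 0) :=
  ⟨h.cvx 0, h.cpt 0, interior_nonempty_of_volume (h.cvx 0) h.pos⟩

theorem symmetrals_of_iter {R : ℝ} {θ : ℕ → ℝ} {j : ℕ}
    {K : ℕ → Set (EuclideanSpace ℝ (Fin 2))} (h : Iter R (fun i => dir (θ (j + i))) K) :
    Symmetrals θ j (K 0) K := ⟨rfl, h.step⟩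

/-- For every sequence of angles `θ i` there is a number `p` such that the sum of
`sin(m (θ (i + 1) - θ i))^2` is finite exactly for the multiples `m` of `p`, and:
if `p = 0`, then from every start the iterated symmetrals of every convex body converge to a
disc centred at the origin; if `p ≥ 1`, then every shape limit (of any body, from any start) has
dihedral symmetry of order `p`; from every start some convex body has a shape limit which is a
convex body and not an ellipsoid; and every convex body with dihedral symmetry of order `p` is a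
limit of shape limits, for all large starts. -/
theorem result (θ : ℕ → ℝ) :
    ∃ p : ℕ,
      (∀ m : ℕ, (Summable fun i => Real.sin (m * (θ (i + 1) - θ i)) ^ 2) ↔ p ∣ m) ∧
      (p = 0 → ∀ (j : ℕ) (K : Set (EuclideanSpace ℝ (Fin 2)))
        (Ks : ℕ → Set (EuclideanSpace ℝ (Fin 2))), Body K → Symmetrals θ j K Ks →
        ∃ r : ℝ, 0 < r ∧
          Tendsto (fun i => Metric.hausdorffDist (Ks i) (Metric.closedBall 0 r)) atTop (𝓝 0)) ∧
      (1 ≤ p →
        (∀ (j : ℕ) (K L : Set (EuclideanSpace ℝ (Fin 2))), Body K → IsCompact L → L.Nonempty →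
          ShapeLimit θ j K L → Dihedral p L) ∧
        (∀ j : ℕ, ∃ K L : Set (EuclideanSpace ℝ (Fin 2)), Body K ∧ Body L ∧
          ShapeLimit θ j K L ∧
            ¬ ∃ A : AffineEquiv ℝ (EuclideanSpace ℝ (Fin 2)) (EuclideanSpace ℝ (Fin 2)),
              L = A '' Metric.closedBall 0 1) ∧
        (∀ L : Set (EuclideanSpace ℝ (Fin 2)), Body L → Dihedral p L → ∀ ε : ℝ, 0 < ε →
          ∃ j₀ : ℕ, ∀ j, j₀ ≤ j → ∃ K L' : Set (EuclideanSpace ℝ (Fin 2)), Body K ∧ Body L' ∧
            ShapeLimit θ j K L' ∧ Metric.hausdorffDist L' L < ε)) := by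
  obtain ⟨p, hp⟩ := exists_period fun i => θ (i + 1) - θ i
  have hshift : ∀ (m : ℕ) (j : ℕ),
      (Summable fun i => Real.sin (m * (θ (j + (i + 1)) - θ (j + i))) ^ 2) ↔
        Summable fun i => Real.sin (m * (θ (i + 1) - θ i)) ^ 2 := by
    intro m j
    rw [← summable_nat_add_iff (f := fun i => Real.sin (m * (θ (i + 1) - θ i)) ^ 2) j]
    refine summable_congr fun i => ?_
    rw [show j + (i + 1) = i + j + 1 by ring, show j + i = i + j by ring]
  refine ⟨p, hp, fun hp0 j K Ks hK h => ?_, fun hp1 => ⟨?_, ?_, ?_⟩⟩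
  · obtain ⟨R, hR⟩ := exists_iter_of hK h
    refine forward (θ := fun i => θ (j + i)) (fun m hm hsum => ?_) hR
    have h1 := (hp m).1 ((hshift m j).1 hsum)
    rw [hp0, zero_dvd_iff] at h1
    omega
  · rintro j K L hK hL hLn ⟨Ks, ψ, h, hlim⟩
    obtain ⟨R, hR⟩ := exists_iter_of hK h
    rw [dihedral_iff]
    exact dihed_of_limit (θ := fun i => θ (j + i)) hp1
      (fun m hsum => (hp m).1 ((hshift m j).1 hsum)) hR ψ hL hLn hlim
  · intro j
    obtain ⟨R, K, hK, hK'⟩ := not_ellipsoid_all (θ := fun i => θ (j + i)) hp1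
      ((hshift p j).2 ((hp p).2 dvd_rfl))
    obtain ⟨ψ, L, hL, hLc, hLv, hLn, -, hlim⟩ := hK.shape
    exact ⟨K 0, L, body_of_iter hK,
      ⟨hLc, hL, interior_nonempty_of_volume hLc (by rw [hLv]; exact hK.pos)⟩,
      ⟨K, fun i => (ψ i).toIsometryEquiv, symmetrals_of_iter hK, hlim⟩, hK' ψ L hL hLn hlim⟩
  · intro L hL hD ε hε
    obtain ⟨c, t, hD⟩ := dihedral_iff.1 hD
    have hsub : ∀ (c : EuclideanSpace ℝ (Fin 2)) {L : Set (EuclideanSpace ℝ (Fin 2))},
        Body L → Body ((fun x => x - c) '' L) := by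
      rintro c L ⟨h1, h2, h3⟩
      refine ⟨?_, h2.image (by fun_prop), ?_⟩
      · have := h1.translate (-c)
        simpa [sub_eq_neg_add] using this
      · have h4 : interior ((fun x => x - c) '' L) = (fun x => x - c) '' interior L :=
          ((Homeomorph.subRight c).image_interior L).symm
        rw [h4]
        exact h3.image _
    obtain ⟨c', h0, hD'⟩ := recenter (hsub c hL).1 (hsub c hL).2.2 hp1 hD
    obtain ⟨j₀, hj₀⟩ := limit_near hp1 ((hp p).2 dvd_rfl) (hsub c' (hsub c hL)).2.1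
      (hsub c' (hsub c hL)).1 h0 hD' hε
    refine ⟨j₀, fun j hj => ?_⟩
    obtain ⟨R, K, χ, L', h1, h2, h3, h4, h5, h6⟩ := hj₀ j hj
    have hiso : Isometry fun x : EuclideanSpace ℝ (Fin 2) => x - (-(c' + c)) :=
      (IsometryEquiv.subRight (-(c' + c))).isometry
    have hL2 : L = (fun x => x - (-(c' + c))) ''
        ((fun x => x - c') '' ((fun x => x - c) '' L)) := by
      rw [image_image, image_image]
      have h7 : ∀ a : EuclideanSpace ℝ (Fin 2), a - c - c' - -(c' + c) = a := fun a => by abel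
      simp only [h7, image_id']
    refine ⟨K 0, (fun x => x - (-(c' + c))) '' L', body_of_iter h1, hsub _ ⟨h3, h2, h4⟩,
      ⟨K, fun i => (χ i).toIsometryEquiv.trans (IsometryEquiv.subRight (-(c' + c))),
        symmetrals_of_iter h1, ?_⟩, ?_⟩
    · refine h5.congr fun i => ?_
      rw [← Metric.hausdorffDist_image hiso, image_image]
      rfl
    · rw [hL2, Metric.hausdorffDist_image hiso]
      exact h6

end Pool.Agent.Results.MP_02d86d_gt.PlanarShapeLimits
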