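import Mathlib
import Pool.Agent.Work.MP_02d86d_gt.Str.MainG

/-!
# The structure of the shape limits of iterated Steiner symmetrals

For every sequence of directions in `ℝⁿ` there are linear isometries, which depend neither on the
body nor on the start, that make all iterated Steiner symmetrals converge. The limits are invariant
under a closed subgroup `G` of the orthogonal group, and every convex body invariant under `G` is a
limit of such limits.
-/

set_option autoImplicit false

open Filter Topology MeasureTheory Set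

namespace Pool.Agent.Results.MP_02d86d_gt.ShapeStructure

open _root_.MP_02d86d_gt

/-- Euclidean space. -/
abbrev V (n : ℕ) : Type := EuclideanSpace ℝ (Fin n)

/-- The orthogonal group. -/
abbrev O (n : ℕ) : Type := V n ≃ₗᵢ[ℝ] V n

/-- A convex body. -/
def Body {n : ℕ} (K : Set (V n)) : Prop :=
  Convex ℝ K ∧ IsCompact K ∧ (interior K).Nonempty

/-- The Steiner symmetral of `K` in the direction of the unit vector `u`. -/
def steiner {n : ℕ} (u : V n) (K : Set (V n)) : Set (V n) :=
  {x | (∃ s : ℝ, x - (inner ℝ x u) • u + s • u ∈ K) ∧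
    2 * |inner ℝ x u| ≤ (volume {s : ℝ | x - (inner ℝ x u) • u + s • u ∈ K}).toReal}

/-- `Ks i` are the iterated Steiner symmetrals of `K` in the directions
`u j, u (j + 1), ...`. -/
def Symmetrals {n : ℕ} (u : ℕ → V n) (j : ℕ) (K : Set (V n)) (Ks : ℕ → Set (V n)) : Prop :=
  Ks 0 = K ∧ ∀ i, Ks (i + 1) = steiner (u (j + i)) (Ks i)

/-- The images under `U (j + i)` of the iterated symmetrals `K_i` of `K` converge to `L`. -/
def Limit {n : ℕ} (u : ℕ → V n) (U : ℕ → O n) (j : ℕ) (K L : Set (V n)) : Prop :=
  ∃ Ks : ℕ → Set (V n), Symmetrals u j K Ks ∧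
    Tendsto (fun i => Metric.hausdorffDist (U (j + i) '' Ks i) L) atTop (𝓝 0)

/-- The set `L` is invariant under the group `G`. -/
def Invariant {n : ℕ} (G : Subgroup (O n)) (L : Set (V n)) : Prop :=
  ∀ g ∈ G, g '' L = L

/-- The group `G` is closed (under pointwise limits of sequences). -/
def Closed {n : ℕ} (G : Subgroup (O n)) : Prop :=
  ∀ (g : ℕ → O n) (h : O n), (∀ m, g m ∈ G) →
    (∀ x, Tendsto (fun m => g m x) atTop (𝓝 (h x))) → h ∈ G

/-- The group `G` contains the reflection in the hyperplane orthogonal to every limit point of the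
sequence `U i (u i)`. -/
def Reflections {n : ℕ} (u : ℕ → V n) (U : ℕ → O n) (G : Subgroup (O n)) : Prop :=
  ∀ (φ : ℕ → ℕ) (w : V n), StrictMono φ → Tendsto (fun i => U (φ i) (u (φ i))) atTop (𝓝 w) →
    ∃ g ∈ G, ∀ x, g x = x - (2 * inner ℝ x w) • w

/-- Let `u i` be unit vectors in `ℝⁿ`. There are linear isometries `U i` and a subgroup `G` of the
orthogonal group such that: `G` is closed; `G` contains the reflection in the hyperplane orthogonal
to every limit point of the sequence `U i (u i)`; for every start `j` and every convex body `K`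
the images `U (j + i) '' K_i` of its iterated symmetrals converge to a convex body invariant under
`G`; and for every convex body `L` invariant under `G` and every `ε > 0`, for all large `j` some
convex body `K` has from the start `j` such a limit at Hausdorff distance less than `ε` from
`L`. -/
theorem result {n : ℕ} (u : ℕ → V n) (hu : ∀ i, ‖u i‖ = 1) :
    ∃ (U : ℕ → O n) (G : Subgroup (O n)),
      Closed G ∧ Reflections u U G ∧
      (∀ (j : ℕ) (K : Set (V n)), Body K → ∃ L, Body L ∧ Invariant G L ∧ Limit u U j K L) ∧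
      (∀ L, Body L → Invariant G L → ∀ ε : ℝ, 0 < ε → ∃ j₀ : ℕ, ∀ j, j₀ ≤ j →
        ∃ K L', Body K ∧ Body L' ∧ Limit u U j K L' ∧ Metric.hausdorffDist L' L < ε) := by
  obtain ⟨U, G, h1, h2, h3, h4⟩ := shape_structure hu
  refine ⟨U, G, h4, fun φ w hφ hw => ⟨rho w, h3 φ w hφ hw, fun x => ?_⟩,
    fun j K hK => ?_, fun L hL hGL ε hε => ?_⟩
  · refine rho_apply ?_ x
    have e1 : Tendsto (fun i => ‖U (φ i) (u (φ i))‖) atTop (𝓝 ‖w‖) := hw.norm
    have e2 : ∀ i, ‖U (φ i) (u (φ i))‖ = 1 := fun i => by
      rw [LinearIsometryEquiv.norm_map, hu]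
    simp only [e2] at e1
    exact (tendsto_nhds_unique e1 tendsto_const_nhds)
  · have hv0 : volume K ≠ 0 :=
      ((isOpen_interior.measure_pos volume hK.2.2).trans_le (measure_mono interior_subset)).ne'
    obtain ⟨r, hr⟩ := hK.2.1.isBounded.subset_closedBall 0
    have hit := iter_seqSt (u := fun i => u (j + i)) (fun i => hu _) hK.2.1 hK.1 hr hv0
    obtain ⟨L, cL, vL, nL, eL, gL, hL⟩ := h1 j r _ hit
    exact ⟨L, ⟨vL, cL, interior_nonempty_of_volume vL (by rw [eL]; exact hv0)⟩, gL,
      seqSt (fun i => u (j + i)) K, ⟨rfl, hit.step⟩, hL⟩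
  · have hv0 : volume L ≠ 0 :=
      ((isOpen_interior.measure_pos volume hL.2.2).trans_le (measure_mono interior_subset)).ne'
    obtain ⟨j₀, hj₀⟩ := h2 L hL.2.1 hL.1 hv0 hGL ε hε
    refine ⟨j₀, fun j hj => ?_⟩
    have cK : IsCompact ((U j).symm '' L) := hL.2.1.image (U j).symm.continuous
    have vK : Convex ℝ ((U j).symm '' L) := convex_lie hL.1 _
    have hvK : volume ((U j).symm '' L) ≠ 0 := by
      rw [volume_lie]
      exact hv0
    have iK : (interior ((U j).symm '' L)).Nonempty := interior_nonempty_of_volume vK hvK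
    obtain ⟨r, hr⟩ := cK.isBounded.subset_closedBall 0
    have hit := iter_seqSt (u := fun i => u (j + i)) (fun i => hu _) cK vK hr hvK
    obtain ⟨L', cL', vL', nL', eL', -, hL'⟩ := h1 j r _ hit
    exact ⟨(U j).symm '' L, L', ⟨vK, cK, iK⟩,
      ⟨vL', cL', interior_nonempty_of_volume vL' (by rw [eL']; exact hvK)⟩,
      ⟨seqSt (fun i => u (j + i)) ((U j).symm '' L), ⟨rfl, hit.step⟩, hL'⟩,
      hj₀ j hj r _ hit rfl L' cL' nL' hL'⟩

end Pool.Agent.Results.MP_02d86d_gt.ShapeStructure
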